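import Pool.Agent.Y472.L.Defs

/-!
# TA-JTA: calculus of the class `Jt`
-/

set_option autoImplicit false

namespace Pool.Agent.Y904.TA

open Finset Filter Topology Pool.Agent.Y472.K Pool.Agent.Y472.L
open scoped Real Nat

variable {ι : Type} [Fintype ι] {E : Subfield ℂ} {κ : ℂ} {p₀ : (ι → ℂ) × ℂ}

theorem pI_ne : pI ≠ 0 := by
  unfold pI
  exact Complex.two_pi_I_ne_zero

theorem mn_mul (m m' : ℤ) (α α' : ι → ℕ) (β β' : ℕ) (t : (ι → ℝ) × ℝ) :
    mn κ m α β t * mn κ m' α' β' t = mn κ (m + m') (α + α') (β + β') t := by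
  simp only [mn, Pi.add_apply, pow_add, Finset.prod_mul_distrib, zpow_add₀ pI_ne]
  ring

theorem mn_pI (l m : ℤ) (α : ι → ℕ) (β : ℕ) (t : (ι → ℝ) × ℝ) :
    pI ^ l * mn κ m α β t = mn κ (l + m) α β t := by
  simp only [mn, zpow_add₀ pI_ne]
  ring

theorem smul_fun (c : E) (h : ((ι → ℝ) × ℝ) → ℂ) : c • h = fun t => (c : ℂ) * h t := by
  funext t
  rw [Pi.smul_apply, Subfield.smul_def, smul_eq_mul]

theorem cmul_mem {S : Submodule E (((ι → ℝ) × ℝ) → ℂ)} {h : ((ι → ℝ) × ℝ) → ℂ} {c : ℂ}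
    (hc : c ∈ E) (hh : h ∈ S) : (fun t => c * h t) ∈ S := by
  have := S.smul_mem (⟨c, hc⟩ : E) hh
  rwa [smul_fun] at this

theorem HP_mul {m m' : ℤ} {k k' : ℕ} {g h : ((ι → ℝ) × ℝ) → ℂ} (hg : g ∈ HP E κ m k)
    (hh : h ∈ HP E κ m' k') : (fun t => g t * h t) ∈ HP E κ (m + m') (k + k') := by
  unfold HP at hg hh ⊢
  induction hg using Submodule.span_induction with
  | mem x hx =>
    obtain ⟨α, β, hk, rfl⟩ := hx
    induction hh using Submodule.span_induction with
    | mem y hy =>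
      obtain ⟨α', β', hk', rfl⟩ := hy
      apply Submodule.subset_span
      refine ⟨α + α', β + β', ?_, ?_⟩
      · simp only [Pi.add_apply, Finset.sum_add_distrib]
        omega
      · funext t
        exact mn_mul _ _ _ _ _ _ t
    | zero =>
      have : (fun t => mn κ m α β t * (0 : ((ι → ℝ) × ℝ) → ℂ) t) = 0 := by
        funext t
        simp
      rw [this]
      exact Submodule.zero_mem _
    | add x y _ _ hx hy =>
      have : (fun t => mn κ m α β t * (x + y) t) =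
          (fun t => mn κ m α β t * x t) + fun t => mn κ m α β t * y t := by
        funext t
        simp only [Pi.add_apply]
        ring
      rw [this]
      exact Submodule.add_mem _ hx hy
    | smul c x _ hx =>
      have : (fun t => mn κ m α β t * (c • x) t) = c • fun t => mn κ m α β t * x t := by
        rw [smul_fun, smul_fun]
        funext t
        ring
      rw [this]
      exact Submodule.smul_mem _ _ hx
  | zero =>
    have : (fun t => (0 : ((ι → ℝ) × ℝ) → ℂ) t * h t) = 0 := by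
      funext t
      simp
    rw [this]
    exact Submodule.zero_mem _
  | add x y _ _ hx hy =>
    have : (fun t => (x + y) t * h t) = (fun t => x t * h t) + fun t => y t * h t := by
      funext t
      simp only [Pi.add_apply]
      ring
    rw [this]
    exact Submodule.add_mem _ hx hy
  | smul c x _ hx =>
    have : (fun t => (c • x) t * h t) = c • fun t => x t * h t := by
      rw [smul_fun, smul_fun]
      funext t
      ring
    rw [this]
    exact Submodule.smul_mem _ _ hx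

theorem HP_pI {m : ℤ} {k : ℕ} {g : ((ι → ℝ) × ℝ) → ℂ} (l : ℤ) (hg : g ∈ HP E κ m k) :
    (fun t => pI ^ l * g t) ∈ HP E κ (l + m) k := by
  unfold HP at hg ⊢
  induction hg using Submodule.span_induction with
  | mem x hx =>
    obtain ⟨α, β, hk, rfl⟩ := hx
    apply Submodule.subset_span
    refine ⟨α, β, hk, ?_⟩
    funext t
    exact mn_pI _ _ _ _ t
  | zero =>
    have : (fun t => pI ^ l * (0 : ((ι → ℝ) × ℝ) → ℂ) t) = 0 := by
      funext t
      simp
    rw [this]
    exact Submodule.zero_mem _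
  | add x y _ _ hx hy =>
    have : (fun t => pI ^ l * (x + y) t) = (fun t => pI ^ l * x t) + fun t => pI ^ l * y t := by
      funext t
      simp only [Pi.add_apply]
      ring
    rw [this]
    exact Submodule.add_mem _ hx hy
  | smul c x _ hx =>
    have : (fun t => pI ^ l * (c • x) t) = c • fun t => pI ^ l * x t := by
      rw [smul_fun, smul_fun]
      funext t
      ring
    rw [this]
    exact Submodule.smul_mem _ _ hx

theorem HP_const {c : ℂ} (hc : c ∈ E) : (fun _ : (ι → ℝ) × ℝ => c) ∈ HP E κ 0 0 := by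
  have h1 : (mn κ 0 (0 : ι → ℕ) 0 : ((ι → ℝ) × ℝ) → ℂ) ∈ HP E κ 0 0 := by
    apply Submodule.subset_span
    exact ⟨0, 0, by simp, rfl⟩
  have h2 := cmul_mem hc h1
  have h3 : (fun t : (ι → ℝ) × ℝ => c * mn κ 0 (0 : ι → ℕ) 0 t) = fun _ => c := by
    funext t
    simp [mn]
  rwa [h3] at h2

theorem HP_zero_const {g : ((ι → ℝ) × ℝ) → ℂ} (hg : g ∈ HP E κ 0 0) : ∃ c ∈ E, ∀ t, g t = c := by
  unfold HP at hg
  induction hg using Submodule.span_induction with
  | mem x hx =>
    obtain ⟨α, β, hk, rfl⟩ := hx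
    refine ⟨1, E.one_mem, fun t => ?_⟩
    have hβ : β = 0 := by omega
    have hα : ∀ a, α a = 0 := by
      intro a
      have h1 : ∑ a, α a = 0 := by omega
      exact (Finset.sum_eq_zero_iff.1 h1) a (Finset.mem_univ a)
    simp [mn, hβ, hα]
  | zero => exact ⟨0, E.zero_mem, fun t => rfl⟩
  | add x y _ _ hx hy =>
    obtain ⟨c, hc, h1⟩ := hx
    obtain ⟨d, hd, h2⟩ := hy
    exact ⟨c + d, E.add_mem hc hd, fun t => by rw [Pi.add_apply, h1, h2]⟩
  | smul c x _ hx =>
    obtain ⟨d, hd, h2⟩ := hx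
    refine ⟨c * d, E.mul_mem c.2 hd, fun t => ?_⟩
    rw [smul_fun]
    simp only [h2]

/-! ### Taylor coefficients along lines -/

theorem an_line {f : (ι → ℂ) × ℂ → ℂ} (hf : AnalyticAt ℂ f p₀) (t : (ι → ℝ) × ℝ) :
    AnalyticAt ℂ (fun z : ℂ => f (p₀ + z • cst t)) 0 := by
  have hg : AnalyticAt ℂ (fun z : ℂ => p₀ + z • cst t) 0 :=
    analyticAt_const.add (analyticAt_id.smul analyticAt_const)
  exact AnalyticAt.comp_of_eq hf hg (by simp)

theorem cd_line {f : (ι → ℂ) × ℂ → ℂ} (hf : AnalyticAt ℂ f p₀) (t : (ι → ℝ) × ℝ) (k : ℕ) :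
    ContDiffAt ℂ k (fun z : ℂ => f (p₀ + z • cst t)) 0 :=
  (an_line hf t).contDiffAt

theorem tc_const (c : ℂ) (k : ℕ) (t : (ι → ℝ) × ℝ) :
    tc (fun _ => c) p₀ k t = if k = 0 then c else 0 := by
  unfold tc
  rw [iteratedDeriv_const]
  split_ifs with h
  · rw [h]
    simp
  · simp

theorem tc_add {f g : (ι → ℂ) × ℂ → ℂ} (hf : AnalyticAt ℂ f p₀) (hg : AnalyticAt ℂ g p₀) (k : ℕ)
    (t : (ι → ℝ) × ℝ) : tc (fun p => f p + g p) p₀ k t = tc f p₀ k t + tc g p₀ k t := by
  unfold tc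
  have h := iteratedDeriv_add (cd_line hf t k) (cd_line hg t k)
  have h2 : ((fun z : ℂ => f (p₀ + z • cst t)) + fun z : ℂ => g (p₀ + z • cst t)) =
      fun z : ℂ => f (p₀ + z • cst t) + g (p₀ + z • cst t) := rfl
  rw [h2] at h
  rw [h, add_div]

theorem tc_cmul (c : ℂ) (f : (ι → ℂ) × ℂ → ℂ) (k : ℕ) (t : (ι → ℝ) × ℝ) :
    tc (fun p => c * f p) p₀ k t = c * tc f p₀ k t := by
  unfold tc
  rw [iteratedDeriv_const_mul_field, mul_div_assoc]

theorem tc_mul {f g : (ι → ℂ) × ℂ → ℂ} (hf : AnalyticAt ℂ f p₀) (hg : AnalyticAt ℂ g p₀) (k : ℕ)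
    (t : (ι → ℝ) × ℝ) :
    tc (fun p => f p * g p) p₀ k t = ∑ i ∈ range (k + 1), tc f p₀ i t * tc g p₀ (k - i) t := by
  unfold tc
  have h := iteratedDeriv_mul (cd_line hf t k) (cd_line hg t k)
  have h2 : ((fun z : ℂ => f (p₀ + z • cst t)) * fun z : ℂ => g (p₀ + z • cst t)) =
      fun z : ℂ => f (p₀ + z • cst t) * g (p₀ + z • cst t) := rfl
  rw [h2] at h
  rw [h, Finset.sum_div]
  refine Finset.sum_congr rfl fun i hi => ?_
  have hik : i ≤ k := by
    rw [Finset.mem_range] at hi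
    omega
  have h3 : ((k.choose i : ℕ) : ℂ) * ((i ! : ℕ) : ℂ) * (((k - i)! : ℕ) : ℂ) = ((k ! : ℕ) : ℂ) := by
    exact_mod_cast Nat.choose_mul_factorial_mul_factorial hik
  have h4 : ((i ! : ℕ) : ℂ) ≠ 0 := by exact_mod_cast Nat.factorial_ne_zero i
  have h5 : (((k - i)! : ℕ) : ℂ) ≠ 0 := by exact_mod_cast Nat.factorial_ne_zero _
  have h6 : ((k.choose i : ℕ) : ℂ) ≠ 0 := by exact_mod_cast (Nat.choose_pos hik).ne'
  rw [← h3]
  field_simp

theorem tc_congr {f g : (ι → ℂ) × ℂ → ℂ} (h : f =ᶠ[𝓝 p₀] g) (k : ℕ) (t : (ι → ℝ) × ℝ) :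
    tc f p₀ k t = tc g p₀ k t := by
  unfold tc
  have h1 : Tendsto (fun z : ℂ => p₀ + z • cst t) (𝓝 0) (𝓝 p₀) := by
    have : Continuous fun z : ℂ => p₀ + z • cst t := by fun_prop
    have h2 := this.tendsto 0
    simpa using h2
  have h2 : (fun z : ℂ => f (p₀ + z • cst t)) =ᶠ[𝓝 0] fun z : ℂ => g (p₀ + z • cst t) :=
    h1.eventually h
  rw [h2.iteratedDeriv_eq k]

theorem Jt_const {c : ℂ} (hc : c ∈ E) : Jt E κ p₀ 0 0 fun _ => c := by
  refine ⟨analyticAt_const, fun k _ => ?_⟩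
  rcases Nat.eq_zero_or_pos k with h | h
  · subst h
    have : tc (fun _ : (ι → ℂ) × ℂ => c) p₀ 0 = fun _ => c := by
      funext t
      rw [tc_const, if_pos rfl]
    rw [this]
    exact HP_const hc
  · have : tc (fun _ : (ι → ℂ) × ℂ => c) p₀ k = 0 := by
      funext t
      rw [tc_const, if_neg h.ne']
      rfl
    rw [this]
    exact Submodule.zero_mem _

theorem Jt_mul {m m' : ℤ} {f g : (ι → ℂ) × ℂ → ℂ} (hf : Jt E κ p₀ m 0 f) (hg : Jt E κ p₀ m' 0 g) :
    Jt E κ p₀ (m + m') 0 fun p => f p * g p := by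
  refine ⟨hf.an.mul hg.an, fun k _ => ?_⟩
  have h1 : tc (fun p => f p * g p) p₀ k =
      ∑ i ∈ range (k + 1), fun t => tc f p₀ i t * tc g p₀ (k - i) t := by
    funext t
    rw [tc_mul hf.an hg.an, Finset.sum_apply]
  rw [h1]
  refine Submodule.sum_mem _ fun i hi => ?_
  have hik : i + (k - i) = k := by
    rw [Finset.mem_range] at hi
    omega
  have h2 := HP_mul (hf.tc i (Nat.zero_le _)) (hg.tc (k - i) (Nat.zero_le _))
  rwa [hik] at h2

theorem Jt_inv {f : (ι → ℂ) × ℂ → ℂ} (hf : Jt E κ p₀ 0 0 f) (h0 : f p₀ ≠ 0) :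
    Jt E κ p₀ 0 0 fun p => (f p)⁻¹ := by
  have hg : AnalyticAt ℂ (fun p => (f p)⁻¹) p₀ := hf.an.inv h0
  have hfE : f p₀ ∈ E := by
    obtain ⟨c, hc, h1⟩ := HP_zero_const (hf.tc 0 le_rfl)
    have h2 := h1 0
    have h3 : tc f p₀ 0 (0 : (ι → ℝ) × ℝ) = f p₀ := by
      unfold tc
      simp
    rw [← h3, h2]
    exact hc
  have hf0 : ∀ t, tc f p₀ 0 t = f p₀ := by
    intro t
    unfold tc
    simp
  have hmul : ∀ k t, ∑ i ∈ range (k + 1), tc f p₀ i t * tc (fun p => (f p)⁻¹) p₀ (k - i) t =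
      if k = 0 then 1 else 0 := by
    intro k t
    rw [← tc_mul hf.an hg, ← tc_const (p₀ := p₀) 1 k t]
    apply tc_congr
    have h1 : ∀ᶠ p in 𝓝 p₀, f p ≠ 0 := hf.an.continuousAt.eventually_ne h0
    filter_upwards [h1] with p hp
    exact mul_inv_cancel₀ hp
  refine ⟨hg, fun k _ => ?_⟩
  induction k using Nat.strong_induction_on with
  | _ k ih =>
    rcases Nat.eq_zero_or_pos k with h | h
    · subst h
      have : tc (fun p => (f p)⁻¹) p₀ 0 = fun _ => (f p₀)⁻¹ := by
        funext t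
        unfold tc
        simp
      rw [this]
      exact HP_const (E.inv_mem hfE)
    · have h1 : tc (fun p => (f p)⁻¹) p₀ k = fun t => (-(f p₀)⁻¹) *
          (∑ i ∈ range k, fun t => tc f p₀ (i + 1) t * tc (fun p => (f p)⁻¹) p₀ (k - (i + 1)) t) t := by
        funext t
        have h2 := hmul k t
        rw [Finset.sum_range_succ', if_neg h.ne', hf0, Nat.sub_zero] at h2
        rw [Finset.sum_apply]
        have h3 : ∀ a X S : ℂ, a ≠ 0 → S + a * X = 0 → X = -a⁻¹ * S := by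
          intro a X S ha h
          field_simp
          linear_combination h
        exact h3 _ _ _ h0 h2
      rw [h1]
      refine cmul_mem (E.neg_mem (E.inv_mem hfE)) ?_
      refine Submodule.sum_mem _ fun i hi => ?_
      rw [Finset.mem_range] at hi
      have h2 := HP_mul (hf.tc (i + 1) (Nat.zero_le _)) (ih (k - (i + 1)) (by omega) (Nat.zero_le _))
      have h3 : i + 1 + (k - (i + 1)) = k := by omega
      rwa [h3, add_zero] at h2

theorem jta : Pool.Agent.Y472.L.S_JTA := by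
  intro ι _ E κ p₀ _
  refine ⟨fun c hc => Jt_const hc, fun c m => ⟨analyticAt_const, fun k hk => ?_⟩,
    fun m k₀ f g hf hg => ⟨hf.an.add hg.an, fun k hk => ?_⟩,
    fun m k₀ f c hc hf => ⟨analyticAt_const.mul hf.an, fun k hk => ?_⟩,
    fun m m' f g hf hg => Jt_mul hf hg, fun f hf h0 => Jt_inv hf h0,
    fun m l k₀ f hf => ⟨analyticAt_const.mul hf.an, fun k hk => ?_⟩,
    fun m k₀ k₁ f hk hf => ⟨hf.an, fun k hk1 => hf.tc k (hk.trans hk1)⟩,
    fun m k₀ f g h hf => ⟨hf.an.congr h, fun k hk => ?_⟩⟩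
  · have : tc (fun _ : (ι → ℂ) × ℂ => c) p₀ k = 0 := by
      funext t
      rw [tc_const, if_neg (by omega)]
      rfl
    rw [this]
    exact Submodule.zero_mem _
  · have : tc (fun p => f p + g p) p₀ k = tc f p₀ k + tc g p₀ k := by
      funext t
      exact tc_add hf.an hg.an k t
    rw [this]
    exact Submodule.add_mem _ (hf.tc k hk) (hg.tc k hk)
  · have : tc (fun p => c * f p) p₀ k = fun t => c * tc f p₀ k t := by
      funext t
      exact tc_cmul c f k t
    rw [this]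
    exact cmul_mem hc (hf.tc k hk)
  · have : tc (fun p => pI ^ l * f p) p₀ k = fun t => pI ^ l * tc f p₀ k t := by
      funext t
      exact tc_cmul _ f k t
    rw [this]
    exact HP_pI l (hf.tc k hk)
  · have : tc g p₀ k = tc f p₀ k := by
      funext t
      exact (tc_congr h k t).symm
    rw [this]
    exact hf.tc k hk

end Pool.Agent.Y904.TA
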