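import Pool.Agent.Y904.TA.Jta

/-!
# TA-JTB: exponentials and trigonometric functions in the class `Jt`
-/

set_option autoImplicit false

namespace Pool.Agent.Y904.TA

open Finset Filter Topology Pool.Agent.Y472.K Pool.Agent.Y472.L
open scoped Real Nat

variable {ι : Type} [Fintype ι] {E : Subfield ℂ} {κ : ℂ} {p₀ : (ι → ℂ) × ℂ}

theorem HP_congr_fun {m : ℤ} {k : ℕ} {g h : ((ι → ℝ) × ℝ) → ℂ} (hg : g ∈ HP E κ m k)
    (e : ∀ t, h t = g t) : h ∈ HP E κ m k := by
  have : h = g := funext e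
  rwa [this]

theorem HP_pow {g : ((ι → ℝ) × ℝ) → ℂ} (hg : g ∈ HP E κ 0 1) (k : ℕ) :
    (fun t => g t ^ k) ∈ HP E κ 0 k := by
  induction k with
  | zero =>
    simp only [pow_zero]
    exact HP_const E.one_mem
  | succ k ih =>
    have h := HP_mul ih hg
    rw [add_zero] at h
    exact HP_congr_fun h fun t => pow_succ _ _

theorem HP_pit (a : ι) : (fun t : (ι → ℝ) × ℝ => pI * t.1 a) ∈ HP E κ 0 1 := by
  classical
  apply Submodule.subset_span
  refine ⟨Pi.single a 1, 0, ?_, ?_⟩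
  · rw [Finset.sum_pi_single']
    simp
  · funext t
    simp only [mn, zpow_zero, one_mul, pow_zero, mul_one]
    rw [Finset.prod_eq_single a]
    · simp
    · intro b _ hb
      simp [Pi.single_eq_of_ne hb]
    · intro h
      exact absurd (Finset.mem_univ a) h

theorem HP_kt : (fun t : (ι → ℝ) × ℝ => κ * t.2) ∈ HP E κ 0 1 := by
  apply Submodule.subset_span
  refine ⟨0, 1, by simp, ?_⟩
  funext t
  simp [mn]

theorem an_fst (a : ι) : AnalyticAt ℂ (fun p : (ι → ℂ) × ℂ => p.1 a) p₀ :=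
  ((ContinuousLinearMap.proj a : (ι → ℂ) →L[ℂ] ℂ).comp
    (ContinuousLinearMap.fst ℂ (ι → ℂ) ℂ)).analyticAt p₀

theorem an_snd : AnalyticAt ℂ (fun p : (ι → ℂ) × ℂ => p.2) p₀ :=
  (ContinuousLinearMap.snd ℂ (ι → ℂ) ℂ).analyticAt p₀

theorem jt_exp (c : ι → ℤ) (hV : Complex.exp (pI * ∑ a, c a * p₀.1 a) ∈ E) :
    Jt E κ p₀ 0 0 fun p => Complex.exp (pI * ∑ a, c a * p.1 a) := by
  refine ⟨?_, fun k _ => ?_⟩
  · have h1 : AnalyticAt ℂ (fun p : (ι → ℂ) × ℂ => ∑ a, (c a : ℂ) * p.1 a) p₀ :=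
      Finset.analyticAt_fun_sum _ fun a _ => analyticAt_const.mul (an_fst a)
    exact (analyticAt_const.mul h1).cexp
  · have hL : (fun t : (ι → ℝ) × ℝ => ∑ a, (c a : ℂ) * (pI * t.1 a)) ∈ HP E κ 0 1 := by
      have h1 : (fun t : (ι → ℝ) × ℝ => ∑ a, (c a : ℂ) * (pI * t.1 a)) =
          ∑ a, fun t : (ι → ℝ) × ℝ => (c a : ℂ) * (pI * t.1 a) := by
        funext t
        rw [Finset.sum_apply]
      rw [h1]
      exact Submodule.sum_mem _ fun a _ => cmul_mem (intCast_mem E (c a)) (HP_pit a)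
    have h2 := cmul_mem (E.div_mem hV (natCast_mem E (k !))) (HP_pow hL k)
    refine HP_congr_fun h2 fun t => ?_
    have h3 : (fun z : ℂ => Complex.exp (pI * ∑ a, (c a : ℂ) * (p₀ + z • cst t).1 a)) = fun z : ℂ =>
        Complex.exp (pI * ∑ a, c a * p₀.1 a) *
          Complex.exp ((∑ a, (c a : ℂ) * (pI * t.1 a)) * z) := by
      funext z
      rw [← Complex.exp_add]
      congr 1
      simp only [cst, Prod.fst_add, Prod.smul_fst, Pi.add_apply, Pi.smul_apply, smul_eq_mul]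
      rw [Finset.mul_sum, Finset.mul_sum, Finset.sum_mul, ← Finset.sum_add_distrib]
      refine Finset.sum_congr rfl fun a _ => ?_
      ring
    unfold tc
    rw [h3, iteratedDeriv_const_mul_field, iteratedDeriv_cexp_const_mul]
    simp only [mul_zero, Complex.exp_zero, mul_one]
    ring

theorem iter_exp (u z : ℂ) (k : ℕ) :
    iteratedDeriv k (fun z : ℂ => Complex.exp (u * z)) z = u ^ k * Complex.exp (u * z) := by
  rw [iteratedDeriv_cexp_const_mul]

theorem jt_cos (hk : κ ≠ 0) (hk2 : κ ^ 2 ∈ E) (h0 : p₀.2 = 0) :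
    Jt E κ p₀ 0 0 fun p => Complex.cos p.2 := by
  refine ⟨(Complex.differentiable_cos.analyticAt p₀.2).comp an_snd, fun k _ => ?_⟩
  have h1 : ∀ t, tc (fun p => Complex.cos p.2) p₀ k t =
      ((Complex.I * t.2) ^ k + (-(Complex.I * t.2)) ^ k) / 2 / (k ! : ℂ) := by
    intro t
    unfold tc
    congr 1
    have h3 : (fun z : ℂ => Complex.cos (p₀ + z • cst t).2) = fun z : ℂ =>
        (1 / 2 : ℂ) * (Complex.exp ((Complex.I * t.2) * z) + Complex.exp (-(Complex.I * t.2) * z)) := by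
      funext z
      simp only [cst, Prod.snd_add, Prod.smul_snd, smul_eq_mul, h0, zero_add]
      rw [Complex.cos]
      ring_nf
    rw [h3, iteratedDeriv_const_mul_field, iteratedDeriv_fun_add (by fun_prop) (by fun_prop), iter_exp,
      iter_exp]
    simp only [mul_zero, Complex.exp_zero, mul_one]
    ring
  rcases Nat.even_or_odd' k with ⟨j, hj | hj⟩
  · have h2 := cmul_mem (E.div_mem (E.pow_mem (E.neg_mem (E.inv_mem hk2)) j) (natCast_mem E (k !)))
      (HP_pow (HP_kt (ι := ι) (E := E) (κ := κ)) k)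
    refine HP_congr_fun h2 fun t => ?_
    rw [h1 t, hj, pow_mul, pow_mul, neg_sq, mul_pow, Complex.I_sq, pow_mul (κ * (t.2 : ℂ)), mul_pow κ,
      ← mul_div_right_comm, ← mul_pow]
    congr 1
    rw [show -(κ ^ 2)⁻¹ * (κ ^ 2 * (t.2 : ℂ) ^ 2) = -1 * (t.2 : ℂ) ^ 2 by field_simp]
    ring
  · have h2 : tc (fun p => Complex.cos p.2) p₀ k = 0 := by
      funext t
      have h4 : (-(Complex.I * (t.2 : ℂ))) ^ k = -(Complex.I * (t.2 : ℂ)) ^ k := by
        rw [hj]
        exact (odd_two_mul_add_one j).neg_pow _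
      rw [h1 t, h4]
      simp
    rw [h2]
    exact Submodule.zero_mem _

theorem jt_sin (hk : κ ≠ 0) (hk2 : κ ^ 2 ∈ E) (h0 : p₀.2 = 0) :
    Jt E κ p₀ 0 0 fun p => κ * Complex.sin p.2 := by
  refine ⟨analyticAt_const.mul ((Complex.differentiable_sin.analyticAt p₀.2).comp an_snd), fun k _ => ?_⟩
  have h1 : ∀ t, tc (fun p => κ * Complex.sin p.2) p₀ k t =
      κ * (Complex.I * ((-(Complex.I * t.2)) ^ k - (Complex.I * t.2) ^ k) / 2) / (k ! : ℂ) := by
    intro t
    unfold tc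
    congr 1
    have h3 : (fun z : ℂ => κ * Complex.sin (p₀ + z • cst t).2) = fun z : ℂ =>
        (κ * Complex.I / 2 : ℂ) *
          (Complex.exp (-(Complex.I * t.2) * z) - Complex.exp ((Complex.I * t.2) * z)) := by
      funext z
      simp only [cst, Prod.snd_add, Prod.smul_snd, smul_eq_mul, h0, zero_add]
      rw [Complex.sin]
      ring_nf
    rw [h3, iteratedDeriv_const_mul_field, iteratedDeriv_fun_sub (by fun_prop) (by fun_prop), iter_exp,
      iter_exp]
    simp only [mul_zero, Complex.exp_zero, mul_one]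
    ring
  rcases Nat.even_or_odd' k with ⟨j, hj | hj⟩
  · have h2 : tc (fun p => κ * Complex.sin p.2) p₀ k = 0 := by
      funext t
      rw [h1 t, hj, (even_two_mul j).neg_pow]
      simp
    rw [h2]
    exact Submodule.zero_mem _
  · have h2 := cmul_mem (E.div_mem (E.pow_mem (E.neg_mem (E.inv_mem hk2)) j) (natCast_mem E (k !)))
      (HP_pow (HP_kt (ι := ι) (E := E) (κ := κ)) k)
    refine HP_congr_fun h2 fun t => ?_
    rw [h1 t]
    have h4 : (-(Complex.I * (t.2 : ℂ))) ^ k = -(Complex.I * (t.2 : ℂ)) ^ k := by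
      rw [hj]
      exact (odd_two_mul_add_one j).neg_pow _
    have h5 : (Complex.I * (t.2 : ℂ)) ^ k = (-1 * (t.2 : ℂ) ^ 2) ^ j * (Complex.I * t.2) := by
      rw [hj, pow_succ, pow_mul, mul_pow, Complex.I_sq]
    have h6 : (κ * (t.2 : ℂ)) ^ k = (κ ^ 2 * (t.2 : ℂ) ^ 2) ^ j * (κ * t.2) := by
      rw [hj, pow_succ, pow_mul, mul_pow κ]
    have h7 : (-(κ ^ 2)⁻¹) ^ j * (κ ^ 2 * (t.2 : ℂ) ^ 2) ^ j = (-1 * (t.2 : ℂ) ^ 2) ^ j := by
      rw [← mul_pow, show -(κ ^ 2)⁻¹ * (κ ^ 2 * (t.2 : ℂ) ^ 2) = -1 * (t.2 : ℂ) ^ 2 by field_simp]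
    rw [h4, h5, h6, ← mul_div_right_comm]
    congr 1
    linear_combination (-(κ * t.2 * (-1 * (t.2 : ℂ) ^ 2) ^ j)) * Complex.I_sq - κ * t.2 * h7

theorem jtb : Pool.Agent.Y472.L.S_JTB := by
  intro ι _ E κ p₀ hk
  refine ⟨fun c hV => jt_exp c hV, fun y hy hc h0 => ?_⟩
  obtain ⟨_, _, hadd, hmul, _, _, _, _, _⟩ := jta ι E κ p₀ hk
  have hk2 : κ ^ 2 ∈ E := by
    have h1 : κ ^ 2 = 1 - (Real.cosh y : ℂ) ^ 2 := by
      have h2 : (Real.cosh y : ℂ) ^ 2 - (Real.sinh y : ℂ) ^ 2 = 1 := by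
        exact_mod_cast Real.cosh_sq_sub_sinh_sq y
      rw [hy, mul_pow, Complex.I_sq]
      linear_combination h2
    rw [h1]
    exact E.sub_mem E.one_mem (E.pow_mem hc 2)
  have hC := jt_cos (E := E) (p₀ := p₀) hk hk2 h0
  have hS := jt_sin (E := E) (p₀ := p₀) hk hk2 h0
  constructor
  · have h1 := hadd 0 0 _ _ (hmul 0 0 _ _ hc hC) (hmul 0 0 _ _ (E.neg_mem E.one_mem) hS)
    have h2 : (fun p : (ι → ℂ) × ℂ => Complex.cos (p.2 + y * Complex.I)) = fun p =>
        (Real.cosh y : ℂ) * Complex.cos p.2 + -1 * (κ * Complex.sin p.2) := by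
      funext p
      rw [Complex.cos_add, Complex.cos_mul_I, Complex.sin_mul_I, hy]
      push_cast
      ring
    rw [h2]
    exact h1
  · have h1 := hadd 0 0 _ _ hC (hmul 0 0 _ _ (E.mul_mem hc (E.inv_mem hk2)) hS)
    have h2 : (fun p : (ι → ℂ) × ℂ => Complex.sin (p.2 + y * Complex.I) / κ) = fun p =>
        Complex.cos p.2 + ((Real.cosh y : ℂ) * (κ ^ 2)⁻¹) * (κ * Complex.sin p.2) := by
      funext p
      rw [Complex.sin_add, Complex.cos_mul_I, Complex.sin_mul_I]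
      have h3 : Complex.sinh y * Complex.I = κ := by
        rw [hy]
        push_cast
        ring
      rw [h3]
      push_cast
      field_simp
      ring
    rw [h2]
    exact h1

end Pool.Agent.Y904.TA
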