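import Pool.Agent.Y904.TA.Jtb

/-!
# TA-QRJ: the coefficient functions in the class `Jt`
-/

set_option autoImplicit false

namespace Pool.Agent.Y904.TA

open Finset Filter Topology Pool.Agent.Y472.K Pool.Agent.Y472.L
open scoped Real Nat

/-- rational expressions in `Z`, `Z⁻¹`, `2 cos χ` and `1 / dn` -/
inductive Ag : (ℂ → ℂ → ℂ) → Prop
  | rat (c : ℚ) : Ag fun _ _ => (c : ℂ)
  | z : Ag fun w _ => Complex.exp (pI * w)
  | zi : Ag fun w _ => Complex.exp (-(pI * w))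
  | cc : Ag fun _ χ => 2 * Complex.cos χ
  | di : Ag fun w χ => (dn w χ)⁻¹
  | add (f g : ℂ → ℂ → ℂ) : Ag f → Ag g → Ag fun w χ => f w χ + g w χ
  | mul (f g : ℂ → ℂ → ℂ) : Ag f → Ag g → Ag fun w χ => f w χ * g w χ

theorem dn_eq (w χ : ℂ) :
    dn w χ = 2 * Complex.cos χ - (Complex.exp (pI * w) + Complex.exp (-(pI * w))) := by
  have h1 : Complex.exp (pI * w) = Complex.cos (2 * π * w) + Complex.sin (2 * π * w) * Complex.I := by
    rw [← Complex.exp_mul_I]
    congr 1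
    unfold pI
    ring
  have h2 : Complex.exp (-(pI * w)) =
      Complex.cos (2 * π * w) - Complex.sin (2 * π * w) * Complex.I := by
    have h3 : -(pI * w) = -(2 * π * w) * Complex.I := by
      unfold pI
      ring
    rw [h3, Complex.exp_mul_I, Complex.cos_neg, Complex.sin_neg]
    ring
  rw [h1, h2, dn]
  ring

theorem sin_eq (w : ℂ) :
    Complex.sin (2 * π * w) = π * pI⁻¹ * (Complex.exp (pI * w) - Complex.exp (-(pI * w))) := by
  have h1 : Complex.exp (pI * w) = Complex.cos (2 * π * w) + Complex.sin (2 * π * w) * Complex.I := by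
    rw [← Complex.exp_mul_I]
    congr 1
    unfold pI
    ring
  have h2 : Complex.exp (-(pI * w)) =
      Complex.cos (2 * π * w) - Complex.sin (2 * π * w) * Complex.I := by
    have h3 : -(pI * w) = -(2 * π * w) * Complex.I := by
      unfold pI
      ring
    rw [h3, Complex.exp_mul_I, Complex.cos_neg, Complex.sin_neg]
    ring
  have h3 : (π : ℂ) ≠ 0 := by exact_mod_cast Real.pi_ne_zero
  have h4 := Complex.I_ne_zero
  rw [h1, h2, pI]
  field_simp
  ring

theorem hd_exp (c w : ℂ) : HasDerivAt (fun v : ℂ => Complex.exp (c * v)) (c * Complex.exp (c * w)) w := by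
  have h1 : HasDerivAt (fun v : ℂ => c * v) c w := by
    simpa using (hasDerivAt_id w).const_mul c
  have h2 := h1.cexp
  rwa [mul_comm] at h2

theorem hd_dn (w χ : ℂ) : HasDerivAt (fun v : ℂ => dn v χ)
    (pI * (Complex.exp (-(pI * w)) - Complex.exp (pI * w))) w := by
  have h1 : (fun v : ℂ => dn v χ) = fun v =>
      2 * Complex.cos χ - (Complex.exp (pI * v) + Complex.exp (-pI * v)) := by
    funext v
    rw [dn_eq, neg_mul]
  rw [h1]
  have h2 := ((hd_exp pI w).add (hd_exp (-pI) w)).const_sub (2 * Complex.cos χ)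
  refine h2.congr_deriv ?_
  rw [neg_mul pI w]
  ring

theorem Ag.deriv {g : ℂ → ℂ → ℂ} (hg : Ag g) : ∃ g' : ℂ → ℂ → ℂ, Ag g' ∧ ∀ w χ : ℂ, dn w χ ≠ 0 →
    HasDerivAt (fun v => g v χ) (pI * g' w χ) w := by
  induction hg with
  | rat c =>
    refine ⟨_, Ag.rat 0, fun w χ _ => ?_⟩
    simpa using hasDerivAt_const w (c : ℂ)
  | z => exact ⟨_, Ag.z, fun w χ _ => hd_exp pI w⟩
  | zi =>
    refine ⟨_, Ag.mul _ _ (Ag.rat (-1)) Ag.zi, fun w χ _ => ?_⟩
    have h := hd_exp (-pI) w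
    have h2 : (fun v : ℂ => Complex.exp (-pI * v)) = fun v => Complex.exp (-(pI * v)) := by
      funext v
      rw [neg_mul]
    rw [h2] at h
    refine h.congr_deriv ?_
    rw [neg_mul]
    push_cast
    ring_nf
  | cc =>
    refine ⟨_, Ag.rat 0, fun w χ _ => ?_⟩
    simpa using hasDerivAt_const w (2 * Complex.cos χ)
  | di =>
    refine ⟨_, Ag.mul _ _ (Ag.add _ _ Ag.z (Ag.mul _ _ (Ag.rat (-1)) Ag.zi)) (Ag.mul _ _ Ag.di Ag.di),
      fun w χ h => ?_⟩
    refine ((hd_dn w χ).inv h).congr_deriv ?_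
    push_cast
    field_simp
    ring
  | add f g _ _ hf hg =>
    obtain ⟨f', hf', h1⟩ := hf
    obtain ⟨g', hg', h2⟩ := hg
    refine ⟨_, Ag.add _ _ hf' hg', fun w χ h => ?_⟩
    refine ((h1 w χ h).add (h2 w χ h)).congr_deriv ?_
    ring
  | mul f g hf0 hg0 hf hg =>
    obtain ⟨f', hf', h1⟩ := hf
    obtain ⟨g', hg', h2⟩ := hg
    refine ⟨_, Ag.add _ _ (Ag.mul _ _ hf' hg0) (Ag.mul _ _ hf0 hg'), fun w χ h => ?_⟩
    refine ((h1 w χ h).mul (h2 w χ h)).congr_deriv ?_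
    ring

theorem dn_ev {w χ : ℂ} (h : dn w χ ≠ 0) : ∀ᶠ v in 𝓝 w, dn v χ ≠ 0 := by
  have : ContinuousAt (fun v => dn v χ) w := (hd_dn w χ).continuousAt
  exact this.eventually_ne h

theorem qt_Ag (k : ℕ) : ∃ g : ℂ → ℂ → ℂ, Ag g ∧ ∀ w χ : ℂ, dn w χ ≠ 0 →
    qt1 k w χ = pI ^ (k + 1) * g w χ := by
  induction k with
  | zero =>
    refine ⟨_, Ag.mul _ _ (Ag.add _ _ Ag.zi (Ag.mul _ _ (Ag.rat (-1)) Ag.z)) Ag.di, fun w χ h => ?_⟩
    have h3 : pI * pI = -(4 * π * π) := by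
      unfold pI
      linear_combination 4 * (π : ℂ) * π * Complex.I_sq
    have h4 : 4 * (π : ℂ) * (π * pI⁻¹) = -pI := by
      have h5 := pI_ne
      field_simp
      linear_combination h3
    rw [qt1, iteratedDeriv_zero, sin_eq, zero_add, pow_one, div_eq_mul_inv]
    push_cast
    linear_combination (Complex.exp (pI * w) - Complex.exp (-(pI * w))) * (dn w χ)⁻¹ * h4
  | succ k ih =>
    obtain ⟨g, hg, h1⟩ := ih
    obtain ⟨g', hg', h2⟩ := hg.deriv
    refine ⟨g', hg', fun w χ h => ?_⟩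
    rw [qt1, iteratedDeriv_succ]
    have h3 : iteratedDeriv k (fun v : ℂ => 4 * π * Complex.sin (2 * π * v) / dn v χ) =ᶠ[𝓝 w]
        fun v => pI ^ (k + 1) * g v χ := by
      filter_upwards [dn_ev h] with v hv
      exact h1 v χ hv
    rw [h3.deriv_eq, ((h2 w χ h).const_mul (pI ^ (k + 1))).deriv]
    ring

variable {ι : Type} [Fintype ι] {E : Subfield ℂ} {κ : ℂ} {p₀ : (ι → ℂ) × ℂ}

theorem jt_Z (a : ι) (hZ : Complex.exp (pI * p₀.1 a) ∈ E) :
    Jt E κ p₀ 0 0 fun p => Complex.exp (pI * p.1 a) := by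
  classical
  have h1 : ∀ p : (ι → ℂ) × ℂ, ∑ b, ((Pi.single a 1 : ι → ℤ) b : ℂ) * p.1 b = p.1 a := by
    intro p
    rw [Finset.sum_eq_single a]
    · simp
    · intro b _ hb
      simp [Pi.single_eq_of_ne hb]
    · intro h
      exact absurd (Finset.mem_univ a) h
  have h2 := jt_exp (E := E) (κ := κ) (p₀ := p₀) (Pi.single a 1 : ι → ℤ) (by rw [h1]; exact hZ)
  simp only [h1] at h2
  exact h2

theorem jt_Zi (a : ι) (hZ : Complex.exp (pI * p₀.1 a) ∈ E) :
    Jt E κ p₀ 0 0 fun p => Complex.exp (-(pI * p.1 a)) := by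
  have h := Jt_inv (jt_Z (κ := κ) a hZ) (Complex.exp_ne_zero _)
  simp only [← Complex.exp_neg] at h
  exact h

theorem qrj : Pool.Agent.Y472.L.S_QRJ := by
  intro _ _ ι _ E κ p₀ a y hk hy hc h0 hZ hd
  obtain ⟨hconst, _, hadd, hmul, _, _, hpI, _, hcongr⟩ := jta ι E κ p₀ hk
  obtain ⟨_, hb⟩ := jtb ι E κ p₀ hk
  obtain ⟨hC, hS⟩ := hb y hy hc h0
  have hk2 : κ ^ 2 ∈ E := by
    have h1 : κ ^ 2 = 1 - (Real.cosh y : ℂ) ^ 2 := by
      have h2 : (Real.cosh y : ℂ) ^ 2 - (Real.sinh y : ℂ) ^ 2 = 1 := by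
        exact_mod_cast Real.cosh_sq_sub_sinh_sq y
      rw [hy, mul_pow, Complex.I_sq]
      linear_combination h2
    rw [h1]
    exact E.sub_mem E.one_mem (E.pow_mem hc 2)
  have h2E : (2 : ℂ) ∈ E := by exact_mod_cast natCast_mem E 2
  have hCC := hmul 0 0 _ _ h2E hC
  have hz := jt_Z (κ := κ) a hZ
  have hzi := jt_Zi (κ := κ) a hZ
  have hdn : Jt E κ p₀ 0 0 fun p => dn (p.1 a) (p.2 + y * Complex.I) := by
    have h1 := hadd 0 0 _ _ hCC (hmul 0 0 _ _ (E.neg_mem E.one_mem) (hadd 0 0 _ _ hz hzi))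
    have h2 : (fun p : (ι → ℂ) × ℂ => dn (p.1 a) (p.2 + y * Complex.I)) = fun p =>
        2 * Complex.cos (p.2 + y * Complex.I) +
          -1 * (Complex.exp (pI * p.1 a) + Complex.exp (-(pI * p.1 a))) := by
      funext p
      rw [dn_eq]
      ring
    rw [h2]
    exact h1
  have hd0 : dn (p₀.1 a) (p₀.2 + y * Complex.I) ≠ 0 := by
    rw [h0, zero_add]
    exact hd
  have hdi := Jt_inv hdn hd0
  have hA : ∀ g : ℂ → ℂ → ℂ, Ag g → Jt E κ p₀ 0 0 fun p => g (p.1 a) (p.2 + y * Complex.I) := by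
    intro g hg
    induction hg with
    | rat c => exact hconst _ (SubfieldClass.ratCast_mem E c)
    | z => exact hz
    | zi => exact hzi
    | cc => exact hCC
    | di => exact hdi
    | add f g _ _ hf hg => exact hadd 0 0 _ _ hf hg
    | mul f g _ _ hf hg =>
      have := Jt_mul hf hg
      rwa [add_zero] at this
  refine ⟨fun k => ?_, ?_, ?_, ?_⟩
  · obtain ⟨g, hg, h1⟩ := qt_Ag k
    have h2 := hpI 0 ((k : ℤ) + 1) 0 _ (hA g hg)
    rw [add_zero] at h2
    refine hcongr _ _ _ _ ?_ h2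
    have h3 : ∀ᶠ p in 𝓝 p₀, dn (p.1 a) (p.2 + y * Complex.I) ≠ 0 :=
      hdn.an.continuousAt.eventually_ne hd0
    filter_upwards [h3] with p hp
    rw [h1 _ _ hp]
    norm_cast
  · have h1 := hmul 0 0 _ _ h2E (Jt_mul hS hdi)
    refine hcongr _ _ _ _ (Eventually.of_forall fun p => ?_) h1
    dsimp only
    rw [div_eq_mul_inv, div_eq_mul_inv, mul_inv]
    ring
  · have h1 := hpI 0 (-1) 0 _ (hmul 0 0 _ _ (E.inv_mem hk2)
      (Jt_mul (hadd 0 0 _ _ hz (hmul 0 0 _ _ (E.neg_mem E.one_mem) hzi)) hdi))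
    rw [add_zero] at h1
    refine hcongr _ _ _ _ (Eventually.of_forall fun p => ?_) h1
    dsimp only
    rw [sin_eq, zpow_neg_one, div_eq_mul_inv, mul_inv, mul_inv]
    have h3 : (π : ℂ) ≠ 0 := by exact_mod_cast Real.pi_ne_zero
    have h4 := pI_ne
    field_simp
    ring
  · have hS0 : Complex.sin (p₀.2 + y * Complex.I) / κ ≠ 0 := by
      rw [h0, zero_add, Complex.sin_mul_I]
      have h3 : Complex.sinh y * Complex.I = κ := by
        rw [hy]
        push_cast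
        ring
      rw [h3, div_self hk]
      exact one_ne_zero
    have h1 := hmul 0 0 _ _ (E.inv_mem hk2) (Jt_mul hC (Jt_inv hS hS0))
    refine hcongr _ _ _ _ (Eventually.of_forall fun p => ?_) h1
    dsimp only
    rw [inv_div, div_eq_mul_inv, div_eq_mul_inv, mul_inv]
    field_simp

end Pool.Agent.Y904.TA
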