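import Pool.Agent.Y472.L.Defs
import Pool.Agent.Y297.TKX.Sdx

/-!
# TA-SDJ: the expansion of the products of sines, with formulas for the coefficients

The function is `sdx` of `Pool/Agent/Y297/TKX/Sdx.lean` with the explicit coefficients of the
Euler-Maclaurin formula of `Pool/Agent/W571/FE/EM.lean`.
-/

set_option autoImplicit false

namespace Pool.Agent.Y904.TA.SD

section em

open Pool.Agent.W571.FE.EM Pool.Agent.W707.FE Filter MeasureTheory Set
open scoped Real Topology Nat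

/-- Euler-Maclaurin with the explicit coefficients `bb` -/
theorem em_bb (θ : ℝ) (h0 : 0 ≤ θ) (h1 : θ ≤ 1) : ∀ K : ℕ, ∃ C : ℝ, 0 ≤ C ∧
    ∀ (F : ℂ → ℂ) (z : ℂ) (n : ℕ) (ε σ B : ℝ), 0 < ε → 4 * ε ≤ σ →
    (∀ x : ℝ, 0 ≤ x → x ≤ n * ε → ∀ w : ℂ, ‖w - (z + x)‖ < σ →
      DifferentiableAt ℂ F w ∧ ‖F w‖ ≤ B) →
    ‖(∑ j ∈ Finset.range n, F (z + ε * (j + θ))) -
      (ε : ℂ)⁻¹ * (∫ x in (0:ℝ)..(n * ε), F (z + x)) -
      ∑ k ∈ Finset.range K, (bb θ k : ℂ) * (ε : ℂ) ^ k *
        (iteratedDeriv k F (z + n * ε) - iteratedDeriv k F z)‖ ≤ C * (n * B * (ε / σ) ^ (K + 1)) := by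
  intro K
  refine ⟨Cc θ K, Cc_nonneg θ K, ?_⟩
  intro F z n ε σ B hε hεσ hF
  have hσ : 0 < σ := by linarith
  induction n with
  | zero => simp
  | succ n ih =>
    have hF' : ∀ x : ℝ, 0 ≤ x → x ≤ n * ε → ∀ w : ℂ, ‖w - (z + x)‖ < σ →
        DifferentiableAt ℂ F w ∧ ‖F w‖ ≤ B := by
      intro x hx0 hx1
      refine hF x hx0 (hx1.trans ?_)
      push_cast
      nlinarith
    have hn := ih hF'
    have hc := cell θ h0 h1 K (F := F) (z := z + n * ε) (σ := σ) (B := B) hε hεσ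
      (fun w hw => hF (n * ε) (by positivity) (by push_cast; nlinarith) w (by
        push_cast; exact hw))
    have hcont : ContinuousOn (fun x : ℝ => F (z + x)) (Icc 0 ((n + 1) * ε)) := by
      intro x hx
      have h2 := (hF x hx.1 (by push_cast; exact hx.2) (z + x) (by simpa using hσ)).1
      have h3 : ContinuousAt (fun x : ℝ => F (z + x)) x :=
        h2.continuousAt.comp (f := fun x : ℝ => z + (x : ℂ)) (by fun_prop)
      exact h3.continuousWithinAt
    have hnε : (n : ℝ) * ε ≤ (n + 1) * ε := by nlinarith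
    have hn0 : (0 : ℝ) ≤ n * ε := by positivity
    have hi1 : IntervalIntegrable (fun x : ℝ => F (z + x)) volume 0 (n * ε) := by
      refine ContinuousOn.intervalIntegrable ?_
      rw [uIcc_of_le hn0]
      exact hcont.mono (Icc_subset_Icc_right hnε)
    have hi2 : IntervalIntegrable (fun x : ℝ => F (z + x)) volume (n * ε) ((n + 1) * ε) := by
      refine ContinuousOn.intervalIntegrable ?_
      rw [uIcc_of_le hnε]
      exact hcont.mono (Icc_subset_Icc_left hn0)
    have hint : (∫ x in (0:ℝ)..((n + 1 : ℕ) * ε), F (z + x)) =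
        (∫ x in (0:ℝ)..(n * ε), F (z + x)) + ∫ x in (0:ℝ)..ε, F (z + n * ε + x) := by
      push_cast
      rw [← intervalIntegral.integral_add_adjacent_intervals hi1 hi2]
      congr 1
      have h4 := intervalIntegral.integral_comp_add_left (a := 0) (b := ε)
        (fun x : ℝ => F (z + x)) ((n : ℝ) * ε)
      rw [add_zero] at h4
      have h5 : ((n : ℝ) + 1) * ε = n * ε + ε := by ring
      rw [h5, ← h4]
      refine intervalIntegral.integral_congr fun x _ => ?_
      congr 1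
      push_cast
      ring
    have e1 : F (z + ε * (n + θ)) = F (z + n * ε + θ * ε) := by
      congr 1; ring
    have e2 : (z : ℂ) + (n + 1 : ℕ) * ε = z + n * ε + ε := by push_cast; ring
    have e3 : ∑ k ∈ Finset.range K, (bb θ k : ℂ) * (ε : ℂ) ^ k *
        (iteratedDeriv k F (z + (n + 1 : ℕ) * ε) - iteratedDeriv k F z) =
        ∑ k ∈ Finset.range K, (bb θ k : ℂ) * (ε : ℂ) ^ k *
        (iteratedDeriv k F (z + n * ε) - iteratedDeriv k F z) +
        ∑ k ∈ Finset.range K, (bb θ k : ℂ) * (ε : ℂ) ^ k *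
        (iteratedDeriv k F (z + n * ε + ε) - iteratedDeriv k F (z + n * ε)) := by
      rw [← Finset.sum_add_distrib]
      refine Finset.sum_congr rfl fun k _ => ?_
      rw [e2]
      ring
    rw [hint, e3, Finset.sum_range_succ, e1]
    refine le_trans (le_of_eq ?_) ((norm_add_le _ _).trans ((add_le_add hn hc).trans (le_of_eq ?_)))
    · congr 1
      ring
    · push_cast
      ring


/-- the coefficients are rational -/
theorem bb_rat : ∀ n : ℕ, ∃ q : ℚ, bb 1 n = (q : ℝ) := by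
  intro n
  induction n using Nat.strong_induction_on with
  | _ n ih =>
    choose q hq using fun k : Fin n => ih k k.2
    refine ⟨(1 ^ (n + 1) - 1 / (n + 2) -
      ∑ k : Fin n, q k * ((n + 1).descFactorial k : ℕ)) / ((n + 1)! : ℕ), ?_⟩
    rw [bb]
    push_cast
    congr 2
    exact Finset.sum_congr rfl fun k _ => by rw [hq k]

end em

open Finset Filter Topology MeasureTheory Pool.Agent.W711.HT Pool.Agent.W707.FE
open Pool.Agent.Y472.K (Lc)
open Pool.Agent.Y297.TKX Pool.Agent.Y472.L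
open scoped Real Nat

theorem exp_F {w : ℂ} (hw : w ∈ U) : Complex.exp (F w) = 2 * Complex.sin (π * w) := by
  unfold F
  rw [Pool.Agent.W571.FE.exp_Gf (mem_Uf hw)]
  have e : 2 * (π : ℂ) * (w - 1 / 2) / 2 = π * w - π / 2 := by ring
  rw [e, Complex.cos_sub_pi_div_two]

theorem F_deriv {w : ℂ} (hw : w ∈ U) :
    HasDerivAt F (π * Complex.cos (π * w) / Complex.sin (π * w)) w := by
  have h1 := (F_diff hw).hasDerivAt
  have h2 := h1.cexp
  have h3 : HasDerivAt (fun v : ℂ => 2 * Complex.sin (π * v)) (2 * (Complex.cos (π * w) * π)) w := by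
    have h4 : HasDerivAt (fun v : ℂ => (π : ℂ) * v) π w := by
      simpa using (hasDerivAt_id w).const_mul (π : ℂ)
    exact h4.csin.const_mul 2
  have h5 : (fun v : ℂ => Complex.exp (F v)) =ᶠ[𝓝 w] fun v => 2 * Complex.sin (π * v) := by
    filter_upwards [isOpen_U.mem_nhds hw] with v hv
    exact exp_F hv
  have h6 := (h2.congr_of_eventuallyEq h5.symm).unique h3
  have h7 := exp_F hw
  have h8 : Complex.sin (π * w) ≠ 0 := by
    intro h
    rw [h, mul_zero] at h7
    exact Complex.exp_ne_zero _ h7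
  refine h1.congr_deriv ?_
  rw [h7] at h6
  rw [eq_div_iff h8]
  linear_combination (1 / 2) * h6

theorem iter_F (k : ℕ) {w : ℂ} (hw : w ∈ U) : iteratedDeriv (k + 1) F w = ct1 k w := by
  rw [iteratedDeriv_succ', ct1]
  have h : deriv F =ᶠ[𝓝 w] fun v : ℂ => π * Complex.cos (π * v) / Complex.sin (π * v) := by
    filter_upwards [isOpen_U.mem_nhds hw] with v hv
    exact (F_deriv hv).deriv
  exact h.iteratedDeriv_eq k

theorem ct_refl (k : ℕ) (w : ℂ) : ct1 k (1 - w) = (-1) ^ (k + 1) * ct1 k w := by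
  have h1 := congrFun (iteratedDeriv_comp_const_sub k
    (fun v : ℂ => π * Complex.cos (π * v) / Complex.sin (π * v)) 1) w
  have h2 : (fun z : ℂ => (fun v : ℂ => π * Complex.cos (π * v) / Complex.sin (π * v)) (1 - z)) =
      fun z => -((fun v : ℂ => π * Complex.cos (π * v) / Complex.sin (π * v)) z) := by
    funext z
    have e : (π : ℂ) * (1 - z) = π - π * z := by ring
    simp only [e, Complex.cos_pi_sub, Complex.sin_pi_sub]
    ring
  rw [h2, iteratedDeriv_fun_neg] at h1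
  have h3 : ((-1 : ℂ) ^ k) * (-1) ^ k = 1 := by
    rw [← mul_pow]
    norm_num
  simp only [smul_eq_mul] at h1
  unfold ct1
  rw [pow_succ]
  linear_combination (-(-1) ^ k) * h1 + (-(iteratedDeriv k (fun v : ℂ => π * Complex.cos (π * v) / Complex.sin (π * v)) (1 - w))) * h3

theorem mem_U_sub {w : ℂ} (hw : w ∈ U) : 1 - w ∈ U := by
  obtain ⟨h0, h1⟩ := hw
  refine ⟨?_, ?_⟩
  · rw [Complex.sub_re, Complex.one_re]; linarith
  · rw [Complex.sub_re, Complex.one_re]; linarith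

theorem ct0 (w : ℂ) : ct1 0 w = π * Complex.cos (π * w) / Complex.sin (π * w) := by
  rw [ct1, iteratedDeriv_zero]

theorem sg0_deriv (b : ℕ → ℝ) {w : ℂ} (hw : w ∈ U) :
    HasDerivAt (sg b 0) (-(1 / 2) * ct1 0 w) w := by
  have h1 := F_deriv hw
  have h2 := F_deriv (mem_U_sub hw)
  rw [← ct0] at h1 h2
  have h4 : HasDerivAt (fun z : ℂ => F (1 - z)) (-ct1 0 (1 - w)) w := h2.comp_const_sub 1 w
  have h5 := (((h1.sub h4).const_mul (b 0 : ℂ)).add h1).const_mul (-(1 / 2) : ℂ)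
  have h6 : sg b 0 = fun z => -(1 / 2) * ((b 0 : ℂ) * (F z - F (1 - z)) + F z) := by
    funext z
    unfold sg
    simp only [iteratedDeriv_zero, if_true]
  rw [h6]
  refine h5.congr_deriv ?_
  rw [ct_refl]
  ring

theorem sg_succ (b : ℕ → ℝ) (k : ℕ) {w : ℂ} (hw : w ∈ U) :
    sg b (k + 1) w = -(1 / 2) * (b (k + 1) : ℂ) * (1 + (-1) ^ k) * ct1 k w := by
  unfold sg
  rw [iter_F k hw, iter_F k (mem_U_sub hw), ct_refl, if_neg (Nat.succ_ne_zero k)]
  ring

theorem Lx_dd {w : ℂ} (hw : w ∈ U) : deriv (deriv Lx) w = -ct1 0 w := by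
  have h : deriv Lx =ᶠ[𝓝 w] fun v => -F v := by
    filter_upwards [isOpen_U.mem_nhds hw] with v hv
    exact (Lx_deriv hv).deriv
  rw [h.deriv_eq, (F_deriv hw).fun_neg.deriv, ct0]

theorem sg0_sq (b : ℕ → ℝ) {δ : ℝ} (h0 : 0 < δ) (h1 : δ < 1) :
    Complex.exp (sg b 0 δ) ^ 2 = 1 / (2 * Real.sin (π * δ) : ℝ) := by
  have h2 : F (1 - (δ : ℂ)) = F δ := by
    have e : (1 : ℂ) - δ = ((1 - δ : ℝ) : ℂ) := by
      push_cast
      rfl
    rw [e, F_real (by linarith) (by linarith), F_real h0 h1]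
    have e2 : π * (1 - δ) = π - π * δ := by ring
    rw [e2, Real.sin_pi_sub]
  have h3 : sg b 0 δ = -(1 / 2) * F δ := by
    unfold sg
    simp only [iteratedDeriv_zero, if_true, h2, sub_self, mul_zero, zero_add]
  rw [h3, ← Complex.exp_nat_mul]
  have e : ((2 : ℕ) : ℂ) * (-(1 / 2) * F δ) = -F δ := by
    push_cast
    ring
  rw [e, Complex.exp_neg, exp_F (real_mem_U h0 h1), one_div]
  push_cast
  rfl

/-- **SDJ** -/
theorem sdj : Pool.Agent.Y472.L.S_SDJ := by
  have hb := em_bb 1 zero_le_one le_rfl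
  choose q hq using bb_rat
  set b : ℕ → ℝ := Pool.Agent.W571.FE.EM.bb 1 with hbd
  refine ⟨Lx, sg b, fun k => -(1 / 2) * q (k + 1) * (1 + (-1) ^ k),
    fun δ h0 h1 => ⟨Lx_ana (real_mem_U h0 h1), Lx_real h0 h1, ?_⟩,
    fun k δ h0 h1 => sg_ana b k (real_mem_U h0 h1),
    fun δ h0 h1 => ⟨sg0_sq b h0 h1, ?_⟩, fun δ₀ h0 h1 K => ?_⟩
  · filter_upwards [isOpen_U.mem_nhds (real_mem_U h0 h1)] with w hw
    exact Lx_dd hw
  · filter_upwards [isOpen_U.mem_nhds (real_mem_U h0 h1)] with w hw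
    refine ⟨(sg0_deriv b hw).deriv, fun k => ?_⟩
    rw [sg_succ b k hw, hq (k + 1)]
    push_cast
    ring
  obtain ⟨C, hC⟩ := expo b δ₀ h0 h1 K (key b hb δ₀ h0 h1 (K + 1))
  -- bound of the coefficient
  obtain ⟨B, hB⟩ := (isCompact_Icc (a := δ₀) (b := 1 - δ₀)).exists_bound_of_continuousOn
    (f := fun x : ℝ => sg b K x) (fun x hx => by
      have h3 : ContinuousAt (fun x : ℝ => sg b K x) x :=
        (sg_ana b K (real_mem_U (lt_of_lt_of_le h0 hx.1)
          (lt_of_le_of_lt hx.2 (by linarith)))).continuousAt.comp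
          Complex.continuous_ofReal.continuousAt
      exact h3.continuousWithinAt)
  refine ⟨B + |C|, ?_⟩
  filter_upwards [eventually_ge_atTop ⌈8 / δ₀⌉₊] with N hN m hm hm'
  have hN' : 8 / δ₀ ≤ (N : ℝ) := (Nat.le_ceil _).trans (by exact_mod_cast hN)
  have h8 : 1 ≤ 8 / δ₀ := by rw [le_div_iff₀ h0]; linarith
  have hN1 : (1 : ℝ) ≤ N := h8.trans hN'
  have hNpos : (0 : ℝ) < N := by linarith
  obtain ⟨e, he, heq⟩ := hC N hN' m hm hm'
  refine ⟨sg b K ((m : ℂ) / N) / (N : ℂ) ^ K + e, ?_, ?_⟩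
  · have h2 : ‖sg b K ((m : ℂ) / N) / (N : ℂ) ^ K‖ ≤ B / (N : ℝ) ^ K := by
      rw [norm_div, norm_pow, Complex.norm_natCast]
      refine div_le_div_of_nonneg_right ?_ (by positivity)
      have h3 := hB ((m : ℝ) / N) ⟨by rw [le_div_iff₀ hNpos]; exact hm,
        by rw [div_le_iff₀ hNpos]; exact hm'⟩
      have e1 : (((m : ℝ) / N : ℝ) : ℂ) = (m : ℂ) / N := by push_cast; rfl
      rw [← e1]
      exact h3
    have h4 : ‖e‖ ≤ |C| / (N : ℝ) ^ K := by
      refine he.trans ?_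
      calc C / (N : ℝ) ^ (K + 1) ≤ |C| / (N : ℝ) ^ (K + 1) :=
            div_le_div_of_nonneg_right (le_abs_self C) (by positivity)
        _ ≤ |C| / (N : ℝ) ^ K :=
            div_le_div_of_nonneg_left (abs_nonneg C) (by positivity)
              (pow_le_pow_right₀ hN1 (Nat.le_succ K))
    rw [add_div]
    exact (norm_add_le _ _).trans (add_le_add h2 h4)
  · rw [heq, Finset.sum_range_succ]
    congr 1
    ring

end Pool.Agent.Y904.TA.SD

namespace Pool.Agent.Y904.TA

/-- **SDJ** -/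
theorem sdj : Pool.Agent.Y472.L.S_SDJ := SD.sdj

end Pool.Agent.Y904.TA
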